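import Pool.Agent.Helper59.MB.Goals1

/-!
# Project MB (MP_49a1ce_an), packet PRB (helper96)
-/

set_option autoImplicit false

open MeasureTheory Filter Topology Finset

namespace Pool.Agent.Helper96.MB

open Pool.Agent.Helper59.MB

noncomputable section

theorem P_pos (s : ℕ → ℕ) (k : ℕ) : 0 < P s k := by
  unfold P; positivity

theorem P_dvd {s : ℕ → ℕ} (hs : StrictMono s) {l k : ℕ} (h : l ≤ k) : P s l ∣ P s k := by
  unfold P
  exact pow_dvd_pow 2 (hs.monotone h)

theorem div_eq_of_dvd {a b p B : ℕ} (_hp : 0 < p) (h : p ∣ B) (hab : a / p = b / p) :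
    a / B = b / B := by
  obtain ⟨r, rfl⟩ := h
  rw [← Nat.div_div_eq_div_mul, ← Nat.div_div_eq_div_mul, hab]

instance probQ (m : Measure A) [IsProbabilityMeasure m] : IsProbabilityMeasure (Q m) := by
  unfold Q; infer_instance

/-- **PRB** -/
theorem t_PRB (hLOC : S_LOC) (hLOP : S_LOP) (hMEA : S_MEA) (hBLK : S_BLK) (hHOE : S_HOE) :
    S_PRB := by
  intro s V m _ hs hVfin hV k
  obtain ⟨hloc1, hloc2, hloc3⟩ := hLOC s hs
  obtain ⟨-, hlop, -⟩ := hLOP s V m hs
  obtain ⟨hmev, -, hmcat, hmphi⟩ := hMEA s V m (fun k => (hVfin k).countable)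
  set B := P s k with hB
  have hB0 : 0 < B := P_pos s k
  set n := P s (k + 1) / P s k with hn
  have hnB : B * n = P s (k + 1) := Nat.mul_div_cancel' (P_dvd hs (Nat.le_succ k))
  have hP0 : 0 < P s (k + 1) := P_pos s (k + 1)
  have hn0 : 0 < n := by
    rcases Nat.eq_zero_or_pos n with h | h
    · rw [h, mul_zero] at hnB; omega
    · exact h
  set Φ := Phi s V m k with hΦ
  have hΦm : Measurable Φ := hmphi k
  -- the expected values
  have he01 : ∀ l ρ, 0 ≤ E s V m k l ρ ∧ E s V m k l ρ ≤ 1 := by
    intro l ρ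
    have hint : Integrable (fun w => ev s l (Φ w) ρ) (Q m) := by
      refine Integrable.of_bound (C := 1) ((hmev l ρ).comp hΦm).aestronglyMeasurable ?_
      refine Filter.Eventually.of_forall fun w => ?_
      rw [Real.norm_eq_abs, abs_of_nonneg (hloc3 l ρ _).1]
      exact (hloc3 l ρ _).2
    constructor
    · exact integral_nonneg fun w => (hloc3 l ρ _).1
    · have h1 : E s V m k l ρ ≤ ∫ _w, (1 : ℝ) ∂(Q m) :=
        integral_mono hint (integrable_const _) fun w => (hloc3 l ρ _).2
      simpa using h1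
  -- `cat` on a block
  have hcat : ∀ (q j : ℕ) (w : Wd), j < B →
      cat s k Φ w (B * q + j) = Φ (from' (B * q) w) j := by
    intro q j w hj
    have h1 : (B * q + j) / B = q := by
      rw [Nat.mul_add_div hB0, Nat.div_eq_of_lt hj, add_zero]
    have h2 : (B * q + j) % B = j := by
      rw [Nat.mul_add_mod, Nat.mod_eq_of_lt hj]
    change Φ (from' (B * ((B * q + j) / B)) w) ((B * q + j) % B) = _
    rw [h1, h2]
  -- the key estimate
  have key : ∀ l ≤ k, ∀ i₁ i₂ : ℕ, i₂ ≤ P s (k + 1) → ∀ v ∈ V k,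
      (Q m).real {w | (P s (k + 1) : ℝ) / (2 * (k + 1)) ≤
        |∑ i ∈ Ico i₁ i₂, (ev s l (cat s k Φ w) i - E s V m k l (i % B)) * v i|} ≤
        2 * Real.exp (-((P s (k + 1) : ℝ) / P s k) / (8 * (k + 1) ^ 2)) := by
    intro l hl i₁ i₂ hi₂ v hv
    have hlB : P s l ∣ B := P_dvd hs hl
    set F : ℕ → Wd → ℝ := fun q w => ∑ i ∈ (Ico i₁ i₂).filter (fun i => i / B = q),
      (ev s l (cat s k Φ w) i - E s V m k l (i % B)) * v i with hF
    have hsum : ∀ w, ∑ q ∈ range n, F q w
        = ∑ i ∈ Ico i₁ i₂, (ev s l (cat s k Φ w) i - E s V m k l (i % B)) * v i := by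
      intro w
      refine Finset.sum_fiberwise_of_maps_to (fun i hi => ?_) _
      rw [mem_Ico] at hi
      rw [mem_range, Nat.div_lt_iff_lt_mul hB0, mul_comm, hnB]
      omega
    have hcatm : Measurable (cat s k Φ) := hmcat k Φ hΦm
    have hFm : ∀ q, Measurable (F q) := by
      intro q
      refine Finset.measurable_sum _ fun i _ => ?_
      exact (((hmev l i).comp hcatm).sub_const _).mul_const _
    have hdep : ∀ q < n, ∀ w w' : Wd, (∀ j < B, w (B * q + j) = w' (B * q + j)) →
        F q w = F q w' := by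
      intro q _ w w' hww
      refine Finset.sum_congr rfl fun i hi => ?_
      have hiq : i / B = q := (mem_filter.1 hi).2
      congr 2
      refine hloc1 l i _ _ fun a ha j _ => ?_
      have haq : a / B = q := by
        rw [← hiq]
        exact div_eq_of_dvd (P_pos s l) hlB ha
      have ha' : a = B * q + a % B := by
        rw [← haq]; exact (Nat.div_add_mod a B).symm
      rw [ha', hcat q _ w (Nat.mod_lt _ hB0), hcat q _ w' (Nat.mod_lt _ hB0)]
      have h1 := hlop k (from' (B * q) w) (from' (B * q) w') (fun j hj => hww j hj)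
        (a % B) (Nat.mod_lt _ hB0)
      exact congrFun h1 j
    have hbd : ∀ q < n, ∀ w, |F q w| ≤ (B : ℝ) := by
      intro q _ w
      refine (Finset.abs_sum_le_sum_abs _ _).trans ?_
      have h1 : ∀ i ∈ (Ico i₁ i₂).filter (fun i => i / B = q),
          |(ev s l (cat s k Φ w) i - E s V m k l (i % B)) * v i| ≤ 1 := by
        intro i _
        rw [abs_mul]
        have h2 : |ev s l (cat s k Φ w) i - E s V m k l (i % B)| ≤ 1 := by
          rw [abs_le]
          have h3 := hloc3 l i (cat s k Φ w)
          have h4 := he01 l (i % B)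
          constructor <;> linarith [h3.1, h3.2, h4.1, h4.2]
        calc |ev s l (cat s k Φ w) i - E s V m k l (i % B)| * |v i| ≤ 1 * 1 :=
              mul_le_mul h2 (hV k v hv i) (abs_nonneg _) zero_le_one
          _ = 1 := one_mul 1
      refine (Finset.sum_le_card_nsmul _ _ 1 h1).trans ?_
      rw [nsmul_eq_mul, mul_one]
      have h2 : (Ico i₁ i₂).filter (fun i => i / B = q) ⊆ Ico (B * q) (B * q + B) := by
        intro i hi
        have hiq : i / B = q := (mem_filter.1 hi).2
        rw [mem_Ico, ← hiq]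
        have h3 := Nat.div_add_mod i B
        have h4 := Nat.mod_lt i hB0
        omega
      have h3 := Finset.card_le_card h2
      rw [Nat.card_Ico] at h3
      have h4 : ((Ico i₁ i₂).filter (fun i => i / B = q)).card ≤ B := by omega
      exact_mod_cast h4
    have hmean : ∀ q < n, ∫ w, F q w ∂(Q m) = 0 := by
      intro q _
      have hint : ∀ i, Integrable (fun w => ev s l (cat s k Φ w) i) (Q m) := by
        intro i
        refine Integrable.of_bound (C := 1) ((hmev l i).comp hcatm).aestronglyMeasurable ?_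
        refine Filter.Eventually.of_forall fun w => ?_
        rw [Real.norm_eq_abs, abs_of_nonneg (hloc3 l i _).1]
        exact (hloc3 l i _).2
      have hI : ∀ i, Integrable (fun w => (ev s l (cat s k Φ w) i - E s V m k l (i % B)) * v i)
          (Q m) := fun i => ((hint i).sub (integrable_const _)).mul_const _
      have h0 : ∫ w, F q w ∂(Q m) = ∑ i ∈ (Ico i₁ i₂).filter (fun i => i / B = q),
          ∫ w, (ev s l (cat s k Φ w) i - E s V m k l (i % B)) * v i ∂(Q m) :=
        integral_finsetSum _ fun i _ => hI i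
      rw [h0]
      refine Finset.sum_eq_zero fun i hi => ?_
      have hiq : i / B = q := (mem_filter.1 hi).2
      rw [integral_mul_const, integral_sub (hint i) (integrable_const _)]
      have hρ : i % B < B := Nat.mod_lt _ hB0
      have hi' : B * q + i % B = i := by rw [← hiq]; exact Nat.div_add_mod i B
      have h1 : ∀ w, ev s l (cat s k Φ w) i = ev s l (Φ (from' (B * q) w)) (i % B) := by
        intro w
        have h2 := hloc2 l k q (i % B) (cat s k Φ w) hl
        rw [← hB, hi'] at h2
        rw [← h2]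
        refine hloc1 l (i % B) _ _ fun a ha j _ => ?_
        have haB : a / B = 0 := by
          rw [div_eq_of_dvd (P_pos s l) hlB ha, Nat.div_eq_of_lt hρ]
        have ha' : a < B := by
          rcases Nat.div_eq_zero_iff.1 haB with h | h
          · omega
          · exact h
        change cat s k Φ w (B * q + a) j = _
        rw [hcat q a w ha']
      have hfm : Measurable (fun w : Wd => from' (B * q) w) := by
        rw [measurable_pi_iff]
        intro j
        exact measurable_pi_apply _
      have h3 : (Q m).map (fun w : Wd => from' (B * q) w) = Q m :=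
        hBLK A m ℕ ℕ (fun i => B * q + i) (fun a b hab => Nat.add_left_cancel hab)
      have h4 : ∫ w, ev s l (cat s k Φ w) i ∂(Q m) = E s V m k l (i % B) := by
        simp_rw [h1]
        have h5 := integral_map (μ := Q m) hfm.aemeasurable
          (f := fun w => ev s l (Φ w) (i % B)) ((hmev l (i % B)).comp hΦm).aestronglyMeasurable
        rw [h3] at h5
        exact h5.symm
      rw [h4]
      simp
    have ht0 : (0 : ℝ) ≤ (P s (k + 1) : ℝ) / (2 * (k + 1)) := by positivity
    have hfin := hHOE m n B F (B : ℝ) ((P s (k + 1) : ℝ) / (2 * (k + 1))) hn0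
      (by exact_mod_cast hB0) ht0 hFm hdep hbd hmean
    simp_rw [hsum] at hfin
    refine hfin.trans (le_of_eq ?_)
    congr 2
    have hnB' : (P s (k + 1) : ℝ) = (B : ℝ) * n := by exact_mod_cast hnB.symm
    have hBr : (B : ℝ) ≠ 0 := by exact_mod_cast hB0.ne'
    have hnr : (n : ℝ) ≠ 0 := by exact_mod_cast hn0.ne'
    have hkr : ((k : ℝ) + 1) ≠ 0 := by positivity
    rw [← hB, hnB']
    field_simp
    ring
  -- the union bound
  set J := range (k + 1) ×ˢ (range (P s (k + 1) + 1) ×ˢ (range (P s (k + 1) + 1) ×ˢ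
    (hVfin k).toFinset)) with hJ
  have hsub : {w | ¬ HGood s V m k (cat s k (Phi s V m k) w)} ⊆
      ⋃ x ∈ J, {w | (P s (k + 1) : ℝ) / (2 * (k + 1)) ≤
        |∑ i ∈ Ico x.2.1 x.2.2.1, (ev s x.1 (cat s k Φ w) i - E s V m k x.1 (i % B)) *
          x.2.2.2 i|} := by
    intro w hw
    rw [Set.mem_ofPred_eq] at hw
    unfold HGood GoodW at hw
    push Not at hw
    obtain ⟨l, hl, i₁, i₂, h12, hi₂, v, hv, hlt⟩ := hw
    simp only [Set.mem_iUnion]
    refine ⟨(l, i₁, i₂, v), ?_, ?_⟩
    · rw [hJ, mem_product, mem_product, mem_product]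
      refine ⟨mem_range.2 (by simpa using Nat.lt_succ_of_le hl), mem_range.2 ?_, mem_range.2 ?_,
        (hVfin k).mem_toFinset.2 hv⟩
      · exact Nat.lt_succ_of_le (h12.trans hi₂)
      · exact Nat.lt_succ_of_le hi₂
    · refine le_trans (le_of_eq ?_) hlt.le
      rw [div_eq_mul_one_div, mul_comm]
  have hcard : (J.card : ℝ) = (k + 1) * (P s (k + 1) + 1) ^ 2 * (V k).ncard := by
    rw [hJ, card_product, card_product, card_product, card_range, card_range,
      Set.ncard_eq_toFinset_card (V k) (hVfin k)]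
    push_cast
    ring
  calc (Q m).real {w | ¬ HGood s V m k (cat s k (Phi s V m k) w)}
      ≤ (Q m).real (⋃ x ∈ J, {w | (P s (k + 1) : ℝ) / (2 * (k + 1)) ≤
        |∑ i ∈ Ico x.2.1 x.2.2.1, (ev s x.1 (cat s k Φ w) i - E s V m k x.1 (i % B)) *
          x.2.2.2 i|}) := measureReal_mono hsub (measure_ne_top _ _)
    _ ≤ ∑ x ∈ J, (Q m).real {w | (P s (k + 1) : ℝ) / (2 * (k + 1)) ≤
        |∑ i ∈ Ico x.2.1 x.2.2.1, (ev s x.1 (cat s k Φ w) i - E s V m k x.1 (i % B)) *
          x.2.2.2 i|} := measureReal_biUnion_finset_le _ _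
    _ ≤ ∑ _x ∈ J, 2 * Real.exp (-((P s (k + 1) : ℝ) / P s k) / (8 * (k + 1) ^ 2)) := by
        refine Finset.sum_le_sum fun x hx => ?_
        rw [hJ, mem_product, mem_product, mem_product] at hx
        obtain ⟨h1, h2, h3, h4⟩ := hx
        exact key x.1 (Nat.le_of_lt_succ (mem_range.1 h1)) x.2.1 x.2.2.1
          (Nat.le_of_lt_succ (mem_range.1 h3)) x.2.2.2 ((hVfin k).mem_toFinset.1 h4)
    _ = 2 * ((k + 1) * (P s (k + 1) + 1) ^ 2 * (V k).ncard *
      Real.exp (-((P s (k + 1) : ℝ) / P s k) / (8 * (k + 1) ^ 2))) := by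
        rw [sum_const, nsmul_eq_mul, hcard]
        ring

end

end Pool.Agent.Helper96.MB
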