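import Pool.Agent.Helper70.MB.Goals

/-!
# MB-PROD: Fourier transform of a product
-/

set_option autoImplicit false

open MeasureTheory Set Metric Filter
open scoped ENNReal FourierTransform Topology ContDiff
open Pool.Agent.Results.MP_91ee6f_gt
open Pool.Agent.Helper70.MB

namespace Pool.Agent.Helper96.MB

theorem prod : CUTF → PROD := by
  intro hC n χ u hχ hu
  have hχc : Continuous χ := hχ.1.continuous
  have hχi : Integrable χ := hχc.integrable_of_hasCompactSupport hχ.2
  have hn : Integrable (fun a : En n => ‖hat χ a‖) := by
    have h := (hC n χ hχ).1 0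
    simpa only [Real.rpow_zero, one_mul] using h
  have hcont : Continuous (hat χ) := continuous_hat hχi
  have hhat : Integrable (hat χ) := (integrable_norm_iff hcont.aestronglyMeasurable).1 hn
  have hinv := (hC n χ hχ).2.2
  have huc : Integrable (fun x : En n => (u x : ℂ)) := integrable_ofReal hu
  have key : ∀ ξ : En n, hat (fun x => χ x * u x) ξ = ∫ a, hat χ a * hat u (ξ - a) := by
    intro ξ
    rw [hat_eq]
    have e1 : ∀ x : En n, Complex.exp ((↑(-2 * Real.pi * inner ℝ x ξ) * Complex.I)) *
        ((χ x * u x : ℝ) : ℂ) = ∫ a, (Complex.exp ((↑(-2 * Real.pi * inner ℝ x ξ) * Complex.I)) *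
          (hat χ a * Complex.exp ((↑(2 * Real.pi * inner ℝ a x) * Complex.I)))) * (u x : ℂ) := by
      intro x
      rw [integral_mul_const, integral_const_mul, ← hinv x]
      push_cast
      ring
    simp only [e1]
    rw [integral_integral_swap]
    · congr 1
      ext a
      rw [hat_eq u (ξ - a), ← integral_const_mul]
      congr 1
      ext x
      have e2 : Complex.exp ((↑(-2 * Real.pi * inner ℝ x (ξ - a)) * Complex.I)) =
          Complex.exp ((↑(-2 * Real.pi * inner ℝ x ξ) * Complex.I)) *
          Complex.exp ((↑(2 * Real.pi * inner ℝ a x) * Complex.I)) := by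
        rw [← Complex.exp_add]
        congr 1
        rw [inner_sub_right, real_inner_comm x a]
        push_cast
        ring
      rw [e2]
      ring
    · have h1 : Integrable (fun p : En n × En n => ‖(u p.1 : ℂ)‖ * ‖hat χ p.2‖)
          ((volume : Measure (En n)).prod volume) := huc.norm.mul_prod hn
      refine h1.mono' ?_ ?_
      · have c1 : Continuous fun p : En n × En n =>
            Complex.exp ((↑(-2 * Real.pi * inner ℝ p.1 ξ) * Complex.I)) *
            (hat χ p.2 * Complex.exp ((↑(2 * Real.pi * inner ℝ p.2 p.1) * Complex.I))) := by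
          fun_prop
        have c2 : AEStronglyMeasurable (fun p : En n × En n => (u p.1 : ℂ))
            ((volume : Measure (En n)).prod volume) := huc.aestronglyMeasurable.comp_fst
        exact c1.aestronglyMeasurable.mul c2
      · refine Eventually.of_forall fun p => ?_
        simp only [Function.uncurry]
        rw [norm_mul, norm_mul, norm_mul, Complex.norm_exp_ofReal_mul_I,
          Complex.norm_exp_ofReal_mul_I, one_mul, mul_one, mul_comm]
  refine ⟨key, fun ξ => ?_, fun a => ?_⟩
  · rw [key ξ, ← integral_sub_left_eq_self (fun a => hat χ a * hat u (ξ - a)) volume ξ]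
    congr 1
    ext ζ
    rw [sub_sub_cancel]
  · rw [hat_eq, hat_eq, ← integral_conj]
    congr 1
    ext x
    rw [map_mul, ← Complex.exp_conj, map_mul, Complex.conj_ofReal, Complex.conj_I,
      Complex.conj_ofReal, inner_neg_right]
    congr 2
    push_cast
    ring

end Pool.Agent.Helper96.MB
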